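import Pool.Agent.H70.NC.Targets

/-! Module BLD: the oracle exists. -/

set_option autoImplicit false

namespace Pool.Agent.H33.NC

open Pool.Agent.H70.NC

open Classical in
/-- the operator whose fixed point is the oracle -/
noncomputable def Phi (key : ℕ → List Bool) (F : ℕ → (List Bool → Bool) → Prop)
    (σ O : List Bool → Bool) : List Bool → Bool := fun w =>
  if ∃ i, w = key i then decide (∃ i, w = key i ∧ F i O) else σ w

theorem Phi_congr {key : ℕ → List Bool} {F : ℕ → (List Bool → Bool) → Prop} (hF : LocF key F)
    {σ O O' : List Bool → Bool} {w : List Bool}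
    (h : ∀ w' : List Bool, w'.length < w.length → O w' = O' w') :
    Phi key F σ O w = Phi key F σ O' w := by
  unfold Phi
  congr 1
  rw [decide_eq_decide]
  refine exists_congr fun i => and_congr_right fun hw => ?_
  exact hF i O O' fun w' hw' => h w' (by rw [hw]; exact hw')

theorem bld : T_BLD := by
  intro key F hk hF σ
  obtain ⟨O, hO⟩ : ∃ O : ℕ → List Bool → Bool, O = fun m => (Phi key F σ)^[m] σ := ⟨_, rfl⟩
  have hs : ∀ m, O (m + 1) = Phi key F σ (O m) := by
    intro m
    rw [hO]
    exact Function.iterate_succ_apply' _ _ _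
  have h1 : ∀ m (w : List Bool), w.length < m → O m w = O (m + 1) w := by
    intro m
    induction m with
    | zero => intro w hw; omega
    | succ m ih =>
      intro w hw
      rw [hs m, hs (m + 1)]
      exact Phi_congr hF fun w' hw' => ih w' (by omega)
  have h2 : ∀ (d : ℕ) (w : List Bool), O (w.length + 1 + d) w = O (w.length + 1) w := by
    intro d w
    induction d with
    | zero => rfl
    | succ d ih => rw [← ih, ← add_assoc, ← h1 _ w (by omega)]
  have h3 : ∀ (m : ℕ) (w : List Bool), w.length < m → O m w = O (w.length + 1) w := by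
    intro m w hw
    have := h2 (m - (w.length + 1)) w
    rwa [show w.length + 1 + (m - (w.length + 1)) = m by omega] at this
  obtain ⟨U, hU⟩ : ∃ U : List Bool → Bool, U = fun w => O (w.length + 1) w := ⟨_, rfl⟩
  have h4 : ∀ w, U w = Phi key F σ U w := by
    intro w
    have h5 : Phi key F σ U w = Phi key F σ (O w.length) w := by
      refine Phi_congr hF fun w' hw' => ?_
      rw [h3 _ _ hw', hU]
    rw [h5, ← hs, hU]
  refine ⟨U, fun i => ?_, fun w hw => ?_⟩
  · rw [h4 (key i)]
    classical
    unfold Phi
    rw [if_pos ⟨i, rfl⟩]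
    rw [decide_eq_true_iff]
    constructor
    · rintro ⟨i', h6, h7⟩
      rw [hk h6]
      exact h7
    · intro h6
      exact ⟨i, rfl, h6⟩
  · rw [h4 w]
    unfold Phi
    rw [if_neg]
    rintro ⟨i, hi⟩
    exact hw i hi

end Pool.Agent.H33.NC
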