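import Pool.Agent.H70.NC.Targets
import Pool.Agent.H70.OQ.Basic

/-! Module FEX: finitely many conditions. -/

set_option autoImplicit false

namespace Pool.Agent.H33.NC

open Finset Pool.Agent.H6.NB Pool.Agent.H70.OQ Pool.Agent.H70.NC

/-- Sum over a function and one of its coordinates. -/
theorem upd_sum {I : Type} [Fintype I] [DecidableEq I] {T : I → Type} [∀ j, Fintype (T j)] (j : I)
    (F : (∀ j, T j) → ℝ) :
    ∑ P, ∑ p, F (Function.update P j p) = Fintype.card (T j) * ∑ P, F P := by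
  have h1 : ∑ P, ∑ p, F (Function.update P j p) =
      ∑ a : (∀ j, T j) × T j, F (Function.update a.1 j a.2) := by
    rw [Fintype.sum_prod_type]
  have h2 : ∑ a : (∀ j, T j) × T j, F (Function.update a.1 j a.2) =
      ∑ a : (∀ j, T j) × T j, F a.1 := by
    refine Fintype.sum_equiv ⟨fun a => (Function.update a.1 j a.2, a.1 j),
      fun a => (Function.update a.1 j a.2, a.1 j), ?_, ?_⟩ _ _ ?_
    · intro a; ext <;> simp
    · intro a; ext <;> simp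
    · intro a; rfl
  rw [h1, h2, Fintype.sum_prod_type]
  simp [Finset.mul_sum]

open Classical in
theorem card_ic {α : Type} [Fintype α] (p : α → Prop) :
    ((univ.filter p).card : ℝ) = ∑ a, ic (p a) := by
  unfold ic
  rw [card_filter]
  push_cast
  rfl

theorem ic_nn (p : Prop) : 0 ≤ ic p := by
  unfold ic
  split_ifs <;> norm_num

theorem ic_one {p : Prop} (h : p) : ic p = 1 := by
  unfold ic
  rw [if_pos h]

/-- the geometric sum -/
theorem geo (J : Finset (ℕ × ℕ)) (hJ : ∀ e ∈ J, e.1 + 3 ≤ e.2) :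
    ∑ e ∈ J, (1 : ℝ) / 2 ^ e.2 ≤ 1 / 2 := by
  obtain ⟨N, hN⟩ : ∃ N : ℕ, ∀ e ∈ J, e.1 + e.2 < N := by
    refine ⟨J.sup (fun e => e.1 + e.2) + 1, fun e he => ?_⟩
    exact Nat.lt_succ_of_le (le_sup (f := fun e : ℕ × ℕ => e.1 + e.2) he)
  have h1 : ∀ e ∈ J, (1 : ℝ) / 2 ^ e.2 =
      (fun a : ℕ × ℕ => (1 / 8 : ℝ) * ((1 / (2 : ℝ)) ^ a.1 * (1 / (2 : ℝ)) ^ a.2))
        (e.1, e.2 - e.1 - 3) := by
    intro e he
    have h2 := hJ e he
    simp only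
    rw [← pow_add, show (1 / 8 : ℝ) = (1 / (2 : ℝ)) ^ 3 by norm_num, ← pow_add,
      show 3 + (e.1 + (e.2 - e.1 - 3)) = e.2 by omega, one_div_pow]
  rw [sum_congr rfl h1]
  have hinj : ∀ e ∈ J, ∀ e' ∈ J, (e.1, e.2 - e.1 - 3) = (e'.1, e'.2 - e'.1 - 3) → e = e' := by
    intro e he e' he' h
    have h2 := hJ e he
    have h3 := hJ e' he'
    rw [Prod.mk.injEq] at h
    ext
    · exact h.1
    · omega
  rw [← sum_image (s := J) (g := fun e : ℕ × ℕ => (e.1, e.2 - e.1 - 3))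
    (f := fun a : ℕ × ℕ => (1 / 8 : ℝ) * ((1 / (2 : ℝ)) ^ a.1 * (1 / (2 : ℝ)) ^ a.2))
    (fun e he e' he' h => hinj e he e' he' h)]
  have hsub : J.image (fun e : ℕ × ℕ => (e.1, e.2 - e.1 - 3)) ⊆ range N ×ˢ range N := by
    intro a ha
    rw [mem_image] at ha
    obtain ⟨e, he, rfl⟩ := ha
    have h2 := hN e he
    rw [mem_product, mem_range, mem_range]
    constructor
    · show e.1 < N
      omega
    · show e.2 - e.1 - 3 < N
      omega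
  calc _ ≤ ∑ a ∈ range N ×ˢ range N, (1 / 8 : ℝ) * ((1 / (2 : ℝ)) ^ a.1 * (1 / (2 : ℝ)) ^ a.2) :=
        sum_le_sum_of_subset_of_nonneg hsub fun a _ _ => by positivity
    _ = 1 / 8 * ((∑ a ∈ range N, (1 / (2 : ℝ)) ^ a) * ∑ a ∈ range N, (1 / (2 : ℝ)) ^ a) := by
        rw [← mul_sum, sum_product, sum_mul_sum]
    _ ≤ 1 / 8 * (2 * 2) := by
        have h3 := sum_geometric_two_le N
        have h4 : 0 ≤ ∑ a ∈ range N, (1 / (2 : ℝ)) ^ a := sum_nonneg fun a _ => by positivity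
        gcongr
    _ = 1 / 2 := by norm_num

theorem ct_ne (k n l : ℕ) : Nonempty (Ct k n l) := by
  have h1 : Nonempty (Hid (Rw n l) (Yq l) k) := hid_nonempty k
  exact inferInstanceAs (Nonempty (Hid (Rw n l) (Yq l) k ×
    ((Fin n → Bool) → (Fin l → Bool)) × ((Fin n → Bool) → Bool)))

theorem fex (h1 : T_BDM) (h2 : Pool.Agent.H70.NC.T_BLD) : T_FEX := by
  intro l key F hl hk hk2 hF k M A δ J hJ
  obtain ⟨E, hE⟩ : ∃ E : Finset (ℕ × ℕ), E = J.image (fun e => (k e.1, e.2)) := ⟨_, rfl⟩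
  have hmem : ∀ e ∈ J, (k e.1, e.2) ∈ E := by
    intro e he
    rw [hE]
    exact mem_image_of_mem _ he
  choose Or hOr using fun P : (∀ p : {a // a ∈ E}, Ct p.1.1 p.1.2 (l p.1.2)) =>
    h2 key F hk hF (sg l E P)
  have key1 : ∀ e ∈ J, ∑ P : (∀ p : {a // a ∈ E}, Ct p.1.1 p.1.2 (l p.1.2)),
      ic (Bad l (M e.1) (A e.1 e.2) e.2 (δ e.1 e.2) (Or P)) ≤
      1 / 2 ^ e.2 * Fintype.card (∀ p : {a // a ∈ E}, Ct p.1.1 p.1.2 (l p.1.2)) := by
    intro e he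
    obtain ⟨ha, hb, hc, hd, hb2⟩ := hJ e he
    have h3 := upd_sum (T := fun p : {a // a ∈ E} => Ct p.1.1 p.1.2 (l p.1.2))
      ⟨(k e.1, e.2), hmem e he⟩
      (fun P => ic (Bad l (M e.1) (A e.1 e.2) e.2 (δ e.1 e.2) (Or P)))
    have h4 : ∀ P : (∀ p : {a // a ∈ E}, Ct p.1.1 p.1.2 (l p.1.2)),
        ∑ c : Ct (k e.1) e.2 (l e.2), ic (Bad l (M e.1) (A e.1 e.2) e.2 (δ e.1 e.2)
          (Or (Function.update P ⟨(k e.1, e.2), hmem e he⟩ c))) ≤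
        1 / 2 ^ e.2 * Fintype.card (Ct (k e.1) e.2 (l e.2)) := by
      intro P
      have h5 := h1 l key F hl hk hk2 (k e.1) e.2 (A e.1 e.2) (M e.1) (δ e.1 e.2) E (hmem e he) P
        (fun c => Or (Function.update P ⟨(k e.1, e.2), hmem e he⟩ c)) (fun c => hOr _) hb hc hd
      rw [card_ic] at h5
      exact h5.trans (mul_le_mul_of_nonneg_right hb2 (Nat.cast_nonneg _))
    have hcp : (0 : ℝ) < Fintype.card (Ct (k e.1) e.2 (l e.2)) := by
      have := ct_ne (k e.1) e.2 (l e.2)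
      exact_mod_cast Fintype.card_pos
    have h6 : (Fintype.card (Ct (k e.1) e.2 (l e.2)) : ℝ) *
        ∑ P : (∀ p : {a // a ∈ E}, Ct p.1.1 p.1.2 (l p.1.2)),
          ic (Bad l (M e.1) (A e.1 e.2) e.2 (δ e.1 e.2) (Or P)) ≤
        (Fintype.card (Ct (k e.1) e.2 (l e.2)) : ℝ) *
        (1 / 2 ^ e.2 * Fintype.card (∀ p : {a // a ∈ E}, Ct p.1.1 p.1.2 (l p.1.2))) := by
      refine (le_of_eq h3.symm).trans ?_
      refine (sum_le_sum fun P _ => h4 P).trans (le_of_eq ?_)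
      rw [sum_const, nsmul_eq_mul, card_univ]
      ring
    exact le_of_mul_le_mul_left h6 hcp
  have hPP : (0 : ℝ) < Fintype.card (∀ p : {a // a ∈ E}, Ct p.1.1 p.1.2 (l p.1.2)) := by
    have : ∀ p : {a // a ∈ E}, Nonempty (Ct p.1.1 p.1.2 (l p.1.2)) := fun p => ct_ne _ _ _
    exact_mod_cast Fintype.card_pos
  by_contra hcon
  push Not at hcon
  have h7 : ∀ P : (∀ p : {a // a ∈ E}, Ct p.1.1 p.1.2 (l p.1.2)),
      (1 : ℝ) ≤ ∑ e ∈ J, ic (Bad l (M e.1) (A e.1 e.2) e.2 (δ e.1 e.2) (Or P)) := by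
    intro P
    obtain ⟨e, he, h8⟩ := hcon (Or P) (hOr P).1
    calc (1 : ℝ) = ic (Bad l (M e.1) (A e.1 e.2) e.2 (δ e.1 e.2) (Or P)) := (ic_one h8).symm
      _ ≤ _ := single_le_sum (f := fun e : ℕ × ℕ =>
          ic (Bad l (M e.1) (A e.1 e.2) e.2 (δ e.1 e.2) (Or P))) (fun _ _ => ic_nn _) he
  have h9 : (Fintype.card (∀ p : {a // a ∈ E}, Ct p.1.1 p.1.2 (l p.1.2)) : ℝ) ≤
      1 / 2 * Fintype.card (∀ p : {a // a ∈ E}, Ct p.1.1 p.1.2 (l p.1.2)) := by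
    calc (Fintype.card (∀ p : {a // a ∈ E}, Ct p.1.1 p.1.2 (l p.1.2)) : ℝ)
        = ∑ P : (∀ p : {a // a ∈ E}, Ct p.1.1 p.1.2 (l p.1.2)), (1 : ℝ) := by
          rw [sum_const, nsmul_eq_mul, card_univ, mul_one]
      _ ≤ ∑ P : (∀ p : {a // a ∈ E}, Ct p.1.1 p.1.2 (l p.1.2)),
          ∑ e ∈ J, ic (Bad l (M e.1) (A e.1 e.2) e.2 (δ e.1 e.2) (Or P)) :=
          sum_le_sum fun P _ => h7 P
      _ = ∑ e ∈ J, ∑ P : (∀ p : {a // a ∈ E}, Ct p.1.1 p.1.2 (l p.1.2)),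
          ic (Bad l (M e.1) (A e.1 e.2) e.2 (δ e.1 e.2) (Or P)) := sum_comm
      _ ≤ ∑ e ∈ J, 1 / 2 ^ e.2 *
          (Fintype.card (∀ p : {a // a ∈ E}, Ct p.1.1 p.1.2 (l p.1.2)) : ℝ) :=
          sum_le_sum key1
      _ = (∑ e ∈ J, (1 : ℝ) / 2 ^ e.2) *
          (Fintype.card (∀ p : {a // a ∈ E}, Ct p.1.1 p.1.2 (l p.1.2)) : ℝ) := by
          rw [sum_mul]
      _ ≤ _ := mul_le_mul_of_nonneg_right (geo J fun e he => (hJ e he).1) hPP.le
  linarith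

end Pool.Agent.H33.NC
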